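import Pool.Agent.Q162.L2.GMDa

/-!
# Sums of waves with arbitrary phases: the mean square
-/

set_option autoImplicit false

namespace Pool.Agent.Q153.L2

open Finset Filter Topology MeasureTheory
open Pool.Agent.Q162.L2.GMD (int_cos_cos)

/-- the `n`-th wave of a combination, with the phases `s j n` -/
noncomputable def wq {I : ℕ} (c s : Fin I → ℕ → ℝ) (n : ℕ) (x : ℝ) : ℝ :=
  ∑ j, c j n * Real.cos (2 * Real.pi * (n + 1 : ℕ) * x - s j n)

theorem wq_cont {I : ℕ} (c s : Fin I → ℕ → ℝ) (n : ℕ) : Continuous (wq c s n) := by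
  unfold wq
  fun_prop

theorem wq_orth {I : ℕ} (c s : Fin I → ℕ → ℝ) (m n : ℕ) (hmn : m ≠ n) :
    ∫ x in (0 : ℝ)..1, wq c s m x * wq c s n x = 0 := by
  have h1 : ∀ x, wq c s m x * wq c s n x = ∑ j, ∑ j', (c j m * c j' n) *
      (Real.cos (2 * Real.pi * (m + 1 : ℕ) * x - s j m) *
        Real.cos (2 * Real.pi * (n + 1 : ℕ) * x - s j' n)) := by
    intro x
    unfold wq
    rw [Finset.sum_mul_sum]
    refine Finset.sum_congr rfl fun j _ => Finset.sum_congr rfl fun j' _ => ?_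
    ring
  simp only [h1]
  rw [intervalIntegral.integral_finsetSum fun j _ => Continuous.intervalIntegrable (by fun_prop) _ _]
  refine Finset.sum_eq_zero fun j _ => ?_
  rw [intervalIntegral.integral_finsetSum fun j _ => Continuous.intervalIntegrable (by fun_prop) _ _]
  refine Finset.sum_eq_zero fun j' _ => ?_
  rw [intervalIntegral.integral_const_mul, int_cos_cos m n hmn, mul_zero]

/-- the mean square of a partial sum -/
theorem psq {I : ℕ} (c s : Fin I → ℕ → ℝ) (f : ℕ → ℝ) (N : ℕ) :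
    ∫ x in (0 : ℝ)..1, (∑ n ∈ range N, f n * wq c s n x) ^ 2 =
      ∑ n ∈ range N, f n ^ 2 * ∫ x in (0 : ℝ)..1, wq c s n x ^ 2 := by
  have hc := wq_cont c s
  induction N with
  | zero => simp
  | succ N ih =>
    rw [Finset.sum_range_succ, ← ih]
    have h1 : ∀ x, (∑ n ∈ range (N + 1), f n * wq c s n x) ^ 2 = (∑ n ∈ range N, f n * wq c s n x) ^ 2 +
        ((∑ n ∈ range N, (2 * f n * f N) * (wq c s n x * wq c s N x)) + f N ^ 2 * wq c s N x ^ 2) := by
      intro x
      rw [Finset.sum_range_succ, add_sq, mul_pow, add_assoc]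
      congr 2
      rw [Finset.mul_sum, Finset.sum_mul]
      refine Finset.sum_congr rfl fun n _ => ?_
      ring
    simp only [h1]
    have i1 : Continuous fun x => (∑ n ∈ range N, f n * wq c s n x) ^ 2 :=
      (continuous_finsetSum _ fun n _ => continuous_const.mul (hc n)).pow 2
    have i2 : Continuous fun x => ∑ n ∈ range N, (2 * f n * f N) * (wq c s n x * wq c s N x) :=
      continuous_finsetSum _ fun n _ => continuous_const.mul ((hc n).mul (hc N))
    have i3 : Continuous fun x => f N ^ 2 * wq c s N x ^ 2 := continuous_const.mul ((hc N).pow 2)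
    have i4 : Continuous fun x => (∑ n ∈ range N, (2 * f n * f N) * (wq c s n x * wq c s N x)) +
        f N ^ 2 * wq c s N x ^ 2 := i2.add i3
    rw [intervalIntegral.integral_add (i1.intervalIntegrable _ _) (i4.intervalIntegrable _ _),
      intervalIntegral.integral_add (i2.intervalIntegrable _ _) (i3.intervalIntegrable _ _),
      intervalIntegral.integral_const_mul]
    have h3 : ∫ x in (0 : ℝ)..1, ∑ n ∈ range N, (2 * f n * f N) * (wq c s n x * wq c s N x) =
        ∑ n ∈ range N, ∫ x in (0 : ℝ)..1, (2 * f n * f N) * (wq c s n x * wq c s N x) :=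
      intervalIntegral.integral_finsetSum fun n _ => (continuous_const.mul ((hc n).mul (hc N))).intervalIntegrable _ _
    rw [h3]
    have h2 : ∑ n ∈ range N, ∫ x in (0 : ℝ)..1, (2 * f n * f N) * (wq c s n x * wq c s N x) = 0 := by
      refine Finset.sum_eq_zero fun n hn => ?_
      rw [intervalIntegral.integral_const_mul, wq_orth c s n N (by
        have := Finset.mem_range.1 hn
        omega), mul_zero]
    rw [h2, zero_add]

theorem wq_bd {I : ℕ} (c s : Fin I → ℕ → ℝ) (n : ℕ) (x : ℝ) : |wq c s n x| ≤ ∑ j, |c j n| := by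
  unfold wq
  refine (Finset.abs_sum_le_sum_abs _ _).trans (Finset.sum_le_sum fun j _ => ?_)
  rw [abs_mul]
  have := mul_le_mul_of_nonneg_left (Real.abs_cos_le_one (2 * Real.pi * (n + 1 : ℕ) * x - s j n)) (abs_nonneg (c j n))
  rwa [mul_one] at this

theorem wq_sq {I : ℕ} (c s : Fin I → ℕ → ℝ) (n : ℕ) :
    0 ≤ ∫ x in (0 : ℝ)..1, wq c s n x ^ 2 ∧ ∫ x in (0 : ℝ)..1, wq c s n x ^ 2 ≤ (∑ j, |c j n|) ^ 2 := by
  have hc := wq_cont c s n
  refine ⟨intervalIntegral.integral_nonneg zero_le_one fun x _ => sq_nonneg _, ?_⟩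
  have h1 : ∫ x in (0 : ℝ)..1, wq c s n x ^ 2 ≤ ∫ _ in (0 : ℝ)..1, (∑ j, |c j n|) ^ 2 := by
    refine intervalIntegral.integral_mono_on zero_le_one ((hc.pow 2).intervalIntegrable _ _)
      (continuous_const.intervalIntegrable _ _) fun x _ => ?_
    rw [← sq_abs]
    exact pow_le_pow_left₀ (abs_nonneg _) (wq_bd c s n x) 2
  simpa using h1

/-- the mean squares of the partial sums converge -/
theorem tends {I : ℕ} (c s : Fin I → ℕ → ℝ) (hc : ∀ j, Summable fun n => |c j n|) (f : ℕ → ℝ)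
    (hf : ∀ n, |f n| ≤ 1) :
    Tendsto (fun N => ∑ n ∈ range N, f n ^ 2 * ∫ x in (0 : ℝ)..1, wq c s n x ^ 2)
      atTop (𝓝 (∫ x in (0 : ℝ)..1, (∑' n, f n * wq c s n x) ^ 2)) := by
  obtain ⟨g, hg⟩ : ∃ g : ℕ → ℝ, g = fun n => ∑ j, |c j n| := ⟨_, rfl⟩
  have hgs : Summable g := by
    rw [hg]
    exact summable_sum fun j _ => hc j
  have hg0 : ∀ n, 0 ≤ g n := fun n => by
    rw [hg]
    exact Finset.sum_nonneg fun j _ => abs_nonneg _
  have h1 : ∀ n x, |f n * wq c s n x| ≤ g n := fun n x => by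
    rw [abs_mul, hg]
    have h2 := wq_bd c s n x
    calc |f n| * |wq c s n x| ≤ 1 * |wq c s n x| := mul_le_mul_of_nonneg_right (hf n) (abs_nonneg _)
      _ ≤ _ := by rw [one_mul]; exact h2
  have h2 : ∀ x, Summable fun n => f n * wq c s n x := fun x =>
    Summable.of_norm_bounded hgs fun n => h1 n x
  have h3 := intervalIntegral.tendsto_integral_filter_of_dominated_convergence (μ := volume) (a := 0) (b := 1)
    (l := atTop) (F := fun N x => (∑ n ∈ range N, f n * wq c s n x) ^ 2)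
    (f := fun x => (∑' n, f n * wq c s n x) ^ 2) (fun _ => (∑' n, g n) ^ 2)
    (Eventually.of_forall fun N => ((continuous_finsetSum _ fun n _ =>
      continuous_const.mul (wq_cont c s n)).pow 2).aestronglyMeasurable)
    (Eventually.of_forall fun N => Eventually.of_forall fun x _ => by
      rw [norm_pow, Real.norm_eq_abs]
      apply pow_le_pow_left₀ (abs_nonneg _)
      refine (Finset.abs_sum_le_sum_abs _ _).trans ((Finset.sum_le_sum fun n _ => h1 n x).trans ?_)
      exact hgs.sum_le_tsum _ fun n _ => hg0 n)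
    (continuous_const.intervalIntegrable _ _)
    (Eventually.of_forall fun x _ => ((h2 x).hasSum.tendsto_sum_nat).pow 2)
  refine h3.congr fun N => ?_
  rw [psq]

theorem sum_inv_sq (N P : ℕ) (hN : 1 ≤ N) (hP : N ≤ P) :
    ∑ n ∈ Ico N P, 1 / ((n : ℝ) + 1) ^ 2 ≤ 1 / (N : ℝ) - 1 / (P : ℝ) := by
  induction P, hP using Nat.le_induction with
  | base => simp
  | succ P hP ih =>
    rw [Finset.sum_Ico_succ_top hP]
    have hP0 : (0 : ℝ) < P := by exact_mod_cast (by omega : 0 < P)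
    have h1 : 1 / ((P : ℝ) + 1) ^ 2 ≤ 1 / (P : ℝ) - 1 / ((P + 1 : ℕ) : ℝ) := by
      push_cast
      rw [div_sub_div _ _ hP0.ne' (by positivity), div_le_div_iff₀ (by positivity) (by positivity)]
      nlinarith
    linarith

/-- the mean square depends little on the signs beyond `N` -/
theorem pars {I : ℕ} (c s : Fin I → ℕ → ℝ) (hc : ∀ j, Summable fun n => |c j n|) (f : ℕ → ℝ)
    (hf : ∀ n, |f n| ≤ 1) (N : ℕ) (hN : 1 ≤ N) (hfN : ∀ n, n < N → f n ^ 2 = 1) (K : ℝ)
    (hK : ∀ n, N ≤ n → ∑ j, |c j n| ≤ K / ((n : ℝ) + 1)) :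
    |(∫ x in (0 : ℝ)..1, (∑' n, f n * wq c s n x) ^ 2) -
      ∫ x in (0 : ℝ)..1, (∑' n, wq c s n x) ^ 2| ≤ K ^ 2 / N := by
  have h1 := tends c s hc f hf
  have h2 := tends c s hc (fun _ => 1) (fun n => by simp)
  simp only [one_mul, one_pow] at h2
  have h3 := (h1.sub h2).abs
  refine le_of_tendsto h3 ?_
  filter_upwards [eventually_ge_atTop N] with P hP
  rw [← Finset.sum_sub_distrib]
  refine (Finset.abs_sum_le_sum_abs _ _).trans ?_
  have hN0 : (0 : ℝ) < N := by exact_mod_cast hN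
  have h4 : ∀ n ∈ range P, |f n ^ 2 * (∫ x in (0 : ℝ)..1, wq c s n x ^ 2) -
      ∫ x in (0 : ℝ)..1, wq c s n x ^ 2| ≤ if N ≤ n then K ^ 2 * (1 / ((n : ℝ) + 1) ^ 2) else 0 := by
    intro n _
    obtain ⟨w0, w1⟩ := wq_sq c s n
    split_ifs with h
    · have h5 : f n ^ 2 * (∫ x in (0 : ℝ)..1, wq c s n x ^ 2) - ∫ x in (0 : ℝ)..1, wq c s n x ^ 2 =
          -((1 - f n ^ 2) * ∫ x in (0 : ℝ)..1, wq c s n x ^ 2) := by ring
      have h6 : f n ^ 2 ≤ 1 := by
        rw [← sq_abs]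
        exact pow_le_one₀ (abs_nonneg _) (hf n)
      have h7 : 0 ≤ f n ^ 2 := sq_nonneg _
      have h8 : 0 ≤ ∑ j, |c j n| := Finset.sum_nonneg fun j _ => abs_nonneg _
      rw [h5, abs_neg, abs_of_nonneg (mul_nonneg (by linarith) w0)]
      calc (1 - f n ^ 2) * ∫ x in (0 : ℝ)..1, wq c s n x ^ 2 ≤
            1 * ∫ x in (0 : ℝ)..1, wq c s n x ^ 2 := mul_le_mul_of_nonneg_right (by linarith) w0
        _ ≤ (∑ j, |c j n|) ^ 2 := by rw [one_mul]; exact w1
        _ ≤ (K / ((n : ℝ) + 1)) ^ 2 := pow_le_pow_left₀ h8 (hK n h) 2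
        _ = _ := by rw [div_pow]; ring
    · rw [hfN n (by omega), one_mul, sub_self, abs_zero]
  refine (Finset.sum_le_sum h4).trans ?_
  rw [← Finset.sum_filter]
  have h5 : (range P).filter (fun n => N ≤ n) = Ico N P := by
    ext n
    rw [mem_filter, mem_range, mem_Ico]
    tauto
  rw [h5, ← Finset.mul_sum]
  have h6 := sum_inv_sq N P hN hP
  have h7 : (0 : ℝ) ≤ 1 / (P : ℝ) := by positivity
  calc K ^ 2 * ∑ n ∈ Ico N P, 1 / ((n : ℝ) + 1) ^ 2 ≤ K ^ 2 * (1 / (N : ℝ)) :=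
        mul_le_mul_of_nonneg_left (by linarith) (sq_nonneg _)
    _ = K ^ 2 / N := by ring

end Pool.Agent.Q153.L2
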