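import Pool.Agent.Q153.L2.Gda
import Pool.Agent.Q162.L2.GMDb
import Pool.Agent.Q255.L2.SNT
import Pool.Agent.Q255.L2.StmQ

/-!
# Combinations of expansions at shifted points as sums of waves
-/

set_option autoImplicit false

namespace Pool.Agent.Q153.L2

open Finset Filter Topology MeasureTheory
open Pool.Agent.Q255.L2 Pool.Agent.Q65.L2
open Pool.Agent.Q162.L2
open Pool.Agent.Q162.L2.GMD (co_summable ph_eq ph_term_bd ph_cont coef_poly)

/-- a combination of expansions at shifted points as a sum of waves -/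
theorem comb_eq {I : ℕ} (l u y : Fin I → ℝ) (b : Fin I → Bool) (T : Fin I → ℝ) (a : Fin I → ℕ → ℝ)
    (hs : ∀ j, Summable fun n : ℕ => |GMD.co (T j) (a j) (y j) (n + 1)|) (f : ℕ → ℝ) (hf : ∀ n, |f n| ≤ 1)
    (x : ℝ) :
    ∑ j, l j * ph (b j) f (T j) (a j) (x + u j) (y j) =
      ∑' n, f (n + 1) * wq (fun j n => l j * GMD.co (T j) (a j) (y j) (n + 1))
        (fun j n => sh (b j) - 2 * Real.pi * (n + 1 : ℕ) * u j) n x := by
  have h1 : ∀ j, HasSum (fun n : ℕ => l j * (f (n + 1) * (GMD.co (T j) (a j) (y j) (n + 1) *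
      Real.cos (2 * Real.pi * (n + 1 : ℕ) * (x + u j) - sh (b j)))))
      (l j * ph (b j) f (T j) (a j) (x + u j) (y j)) := by
    intro j
    rw [ph_eq]
    refine HasSum.mul_left _ (Summable.hasSum ?_)
    exact Summable.of_norm_bounded (hs j) fun n => ph_term_bd (b j) f hf (T j) (a j) (x + u j) (y j) n
  have h2 := hasSum_sum (s := (univ : Finset (Fin I))) fun j _ => h1 j
  rw [← h2.tsum_eq]
  refine tsum_congr fun n => ?_
  unfold wq
  rw [Finset.mul_sum]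
  refine Finset.sum_congr rfl fun j _ => ?_
  have h3 : 2 * Real.pi * (n + 1 : ℕ) * (x + u j) - sh (b j) =
      2 * Real.pi * (n + 1 : ℕ) * x - (sh (b j) - 2 * Real.pi * (n + 1 : ℕ) * u j) := by ring
  rw [h3]
  ring

/-- polynomial times exponential -/
theorem poly_exp {y₀ : ℝ} (hy₀ : 0 < y₀) : ∃ D : ℝ, 0 ≤ D ∧ ∀ n : ℕ, 1 ≤ n →
    (n : ℝ) ^ 3 * Real.exp (-(Real.pi * y₀) * n) ≤ D / n := by
  have hpi := Real.pi_pos
  refine ⟨24 / (Real.pi * y₀) ^ 4, by positivity, fun n hn => ?_⟩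
  have hn0 : (0 : ℝ) < n := by exact_mod_cast hn
  have h1 : (Real.pi * y₀ * n) ^ 4 / 24 ≤ Real.exp (Real.pi * y₀ * n) := by
    have h2 := Real.pow_div_factorial_le_exp (Real.pi * y₀ * n) (by positivity) 4
    have h3 : ((Nat.factorial 4 : ℕ) : ℝ) = 24 := by norm_num [Nat.factorial]
    rwa [h3] at h2
  have h2 : Real.exp (-(Real.pi * y₀) * n) = 1 / Real.exp (Real.pi * y₀ * n) := by
    rw [neg_mul, Real.exp_neg, one_div]
  have h4 : 0 < (Real.pi * y₀ * n) ^ 4 / 24 := by positivity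
  rw [h2]
  calc (n : ℝ) ^ 3 * (1 / Real.exp (Real.pi * y₀ * n)) ≤ (n : ℝ) ^ 3 * (1 / ((Real.pi * y₀ * n) ^ 4 / 24)) :=
        mul_le_mul_of_nonneg_left (one_div_le_one_div_of_le h4 h1) (by positivity)
    _ = _ := by
        field_simp

/-- the coefficients beyond `M T` are small -/
theorem co_far (hK : S_KODE) {ι : Type} (T : ι → ℝ) (a : ι → ℕ → ℝ) (hT : ∀ i, 1 ≤ T i) (hC : Coef T a)
    {y₀ : ℝ} (hy₀ : 0 < y₀) (m : ℕ) (hm : 1 ≤ m * y₀) : ∃ K : ℝ, 0 ≤ K ∧ ∀ (i : ι) (y : ℝ) (n : ℕ), y₀ ≤ y →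
      1 ≤ n → m * T i < n → |GMD.co (T i) (a i) y n| ≤ K / n := by
  obtain ⟨C, h⟩ := hC.1 1 one_pos
  obtain ⟨D, hD0, hD⟩ := poly_exp hy₀
  refine ⟨(1 + |C|) * y₀ * D, by positivity, fun i y n hy hn hfar => ?_⟩
  have hn1 : (1 : ℝ) ≤ n := by exact_mod_cast hn
  have hn0 : (0 : ℝ) < n := by linarith
  have hTi := hT i
  have h1 : a i n ^ 8 ≤ C * ((n : ℝ) * T i) * n := by
    have h2 := h i n hn
    rw [Real.rpow_one] at h2
    have h3 : a i n ^ 8 ≤ ∑ m ∈ Icc 1 n, a i m ^ 8 :=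
      Finset.single_le_sum (f := fun m => a i m ^ 8) (fun m _ => by positivity) (Finset.mem_Icc.2 ⟨hn, le_rfl⟩)
    exact h3.trans h2
  have h4 : |a i n| ≤ 1 + a i n ^ 8 := by
    have h5 : a i n ^ 8 = |a i n| ^ 8 := by
      rw [← abs_pow, abs_of_nonneg (by positivity)]
    rw [h5]
    rcases le_or_gt (|a i n|) 1 with h6 | h6
    · have : 0 ≤ |a i n| ^ 8 := by positivity
      linarith
    · have h7 : |a i n| ^ 1 ≤ |a i n| ^ 8 := pow_le_pow_right₀ h6.le (by norm_num)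
      rw [pow_one] at h7
      linarith
  have h5 : |a i n| ≤ (1 + |C|) * (n : ℝ) ^ (1 : ℝ) * ((n : ℝ) * T i) := by
    rw [Real.rpow_one]
    have h6 : C * ((n : ℝ) * T i) * n ≤ |C| * ((n : ℝ) * T i) * n :=
      mul_le_mul_of_nonneg_right (mul_le_mul_of_nonneg_right (le_abs_self _) (by positivity)) hn0.le
    have h8 : (1 : ℝ) ≤ (n : ℝ) * T i := one_le_mul_of_one_le_of_one_le hn1 hTi
    have h7 : (1 : ℝ) ≤ n * ((n : ℝ) * T i) := one_le_mul_of_one_le_of_one_le hn1 h8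
    calc |a i n| ≤ 1 + |C| * ((n : ℝ) * T i) * n := by linarith
      _ ≤ n * ((n : ℝ) * T i) + |C| * ((n : ℝ) * T i) * n := by linarith
      _ = (1 + |C|) * (n : ℝ) * ((n : ℝ) * T i) := by ring
  have h6 := far hK (m := m) (θ := 1) (T := T i) (C := 1 + |C|) (y₀ := y₀) (y := y) (x := 0) (a := a i)
    true zero_le_one hTi hy₀ hy hm (K := 3) (by norm_num) hn h5 hfar
  have h7 : tm (T i) (a i) true 0 y n = GMD.co (T i) (a i) y n := by
    unfold tm Pool.Agent.Q162.L2.GMD.co sh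
    simp
  rw [h7, abs_of_nonneg (by positivity : (0 : ℝ) ≤ 1 + |C|)] at h6
  refine h6.trans ?_
  calc (1 + |C|) * y₀ * ((n : ℝ) ^ 3 * Real.exp (-(Real.pi * y₀) * n)) ≤ (1 + |C|) * y₀ * (D / n) :=
        mul_le_mul_of_nonneg_left (hD n hn) (by positivity)
    _ = _ := by ring

/-- the mean square of a combination depends little on the signs -/
theorem mean_sq (hK : S_KODE) {ι : Type} (T : ι → ℝ) (a : ι → ℕ → ℝ) (hT : ∀ i, 1 ≤ T i) (hC : Coef T a)
    {y₀ : ℝ} (hy₀ : 0 < y₀) (M I : ℕ) (hM : 1 ≤ M * y₀) : ∃ K : ℝ, 0 ≤ K ∧ ∀ (N : ℕ) (i : Fin I → ι)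
      (b : Fin I → Bool) (l u y : Fin I → ℝ) (f : ℕ → ℝ), 1 ≤ N → (∀ j, M * T (i j) ≤ N) → (∀ j, |l j| ≤ 1) →
      (∀ j, y₀ ≤ y j) → (∀ n, |f n| ≤ 1) → (∀ n, 1 ≤ n → n ≤ N → f n ^ 2 = 1) →
      |(∫ x in (0 : ℝ)..1, (∑ j, l j * ph (b j) f (T (i j)) (a (i j)) (x + u j) (y j)) ^ 2) -
        ∫ x in (0 : ℝ)..1, (∑ j, l j * ph (b j) (fun _ => 1) (T (i j)) (a (i j)) (x + u j) (y j)) ^ 2| ≤
          K / N := by
  obtain ⟨K, hK0, hKb⟩ := co_far hK T a hT hC hy₀ M hM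
  refine ⟨(I * K) ^ 2, by positivity, fun N i b l u y f hN hMT hl hy hf hfN => ?_⟩
  have hs : ∀ j, Summable fun n : ℕ => |GMD.co (T (i j)) (a (i j)) (y j) (n + 1)| := by
    intro j
    obtain ⟨A, hA0, hA⟩ := coef_poly T a hC (i j)
    exact co_summable hK (T (i j)) (a (i j)) (y j) A (hy₀.trans_le (hy j)) hA0 hA
  have h1 := comb_eq l u y b (fun j => T (i j)) (fun j => a (i j)) hs f hf
  have h2 := comb_eq l u y b (fun j => T (i j)) (fun j => a (i j)) hs (fun _ => 1) (fun n => by simp)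
  simp only [one_mul] at h2
  simp only [h1, h2]
  refine pars _ _ (fun j => ?_) (fun n => f (n + 1)) (fun n => hf (n + 1)) N hN
    (fun n hn => hfN (n + 1) (by omega) (by omega)) (I * K) fun n hn => ?_
  · have h3 : (fun n => |l j * GMD.co (T (i j)) (a (i j)) (y j) (n + 1)|) =
        fun n => |l j| * |GMD.co (T (i j)) (a (i j)) (y j) (n + 1)| := funext fun n => abs_mul _ _
    rw [h3]
    exact (hs j).mul_left _
  · have h4 : ∀ j ∈ (univ : Finset (Fin I)), |l j * GMD.co (T (i j)) (a (i j)) (y j) (n + 1)| ≤ K / ((n : ℝ) + 1) := by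
      intro j _
      rw [abs_mul]
      have h5 : M * T (i j) < ((n + 1 : ℕ) : ℝ) := by
        have h6 : (N : ℝ) ≤ n := by exact_mod_cast hn
        push_cast
        linarith [hMT j]
      have h6 := hKb (i j) (y j) (n + 1) (hy j) (by omega) h5
      push_cast at h6
      calc |l j| * |GMD.co (T (i j)) (a (i j)) (y j) (n + 1)| ≤ 1 * |GMD.co (T (i j)) (a (i j)) (y j) (n + 1)| :=
            mul_le_mul_of_nonneg_right (hl j) (abs_nonneg _)
        _ ≤ _ := by rw [one_mul]; exact h6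
    refine (Finset.sum_le_sum h4).trans (le_of_eq ?_)
    rw [Finset.sum_const, Finset.card_univ, Fintype.card_fin, nsmul_eq_mul]
    ring

end Pool.Agent.Q153.L2
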