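import Pool.Agent.Q162.L2.GMDc
import Pool.Agent.Q162.L2.GMDd
import Pool.Agent.Q255.L2.StmQ

/-!
# The coefficients of a combination at shifted points and different heights
-/

set_option autoImplicit false

namespace Pool.Agent.Q153.L2

open Finset Filter Topology MeasureTheory
open Pool.Agent.Q255.IC Pool.Agent.Q255.EP Pool.Agent.Q255.L2 Pool.Agent.Q65.L2 Pool.Agent.Q162.L2.GMB
open Pool.Agent.Q162.L2.GMD (bc bc_norm gw_sup sumsq_le_nn sum_Bx bt_neg bc_neg DB_multi pow_expand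
  ph_cont coef_poly co_summable)

theorem norm_ee (x : ℝ) : ‖ee x‖ = 1 := by
  unfold ee
  exact Complex.norm_exp_ofReal_mul_I _

theorem conj_ee (x : ℝ) : (starRingEnd ℂ) (ee x) = ee (-x) := by
  unfold ee
  rw [← Complex.exp_conj, map_mul, Complex.conj_ofReal, Complex.conj_I]
  congr 1
  push_cast
  ring

/-- the coefficients of a shifted expansion -/
noncomputable def bs (T : ℝ) (a : ℕ → ℝ) (M : ℝ) (b : Bool) (y u : ℝ) (n : ℤ) : ℂ :=
  bt T a M b y n * ee ((n : ℝ) * u)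

theorem bs_norm (T : ℝ) (a : ℕ → ℝ) (M : ℝ) (b : Bool) (y u : ℝ) (n : ℤ) :
    ‖bs T a M b y u n‖ = ‖bt T a M b y n‖ := by
  unfold bs
  rw [norm_mul, norm_ee, mul_one]

theorem bs_neg (T : ℝ) (a : ℕ → ℝ) (M : ℝ) (b : Bool) (y u : ℝ) (m : ℤ) :
    bs T a M b y u (-m) = (starRingEnd ℂ) (bs T a M b y u m) := by
  unfold bs
  rw [map_mul, bt_neg, conj_ee]
  congr 2
  push_cast
  ring

/-- the size and the mean square of the coefficients of a combination -/
theorem vbound (hKW : S_KW) (hKN : S_KN2) {ι : Type} (T : ι → ℝ) (a : ι → ℕ → ℝ) (hT : ∀ i, 1 ≤ T i)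
    (hC : Coef T a) (y₀ y₁ M : ℝ) (q I : ℕ) (hy₀ : 0 < y₀) (hy₁ : y₀ ≤ y₁) (hM : 1 ≤ M) (ε : ℝ) (hε : 0 < ε) :
    ∃ D : ℝ, 1 ≤ D ∧ ∀ (J X : ℕ) (i : Fin I → ι) (b : Fin I → Bool) (l u y : Fin I → ℝ),
      (∀ j, T (i j) ≤ 2 ^ J ∧ 2 ^ J ≤ 2 ^ q * T (i j)) → (∀ j, |l j| ≤ 1) → (∀ j, y₀ ≤ y j ∧ y j ≤ y₁) →
      M * 2 ^ J ≤ X →
      (∀ m, ‖bc l (fun j => bs (T (i j)) (a (i j)) (M * T (i j)) (b j) (y j) (u j)) m‖ ≤ D * P2 ((ε - 1 / 8) * J)) ∧
      √(∑ m ∈ Bx X, ‖bc l (fun j => bs (T (i j)) (a (i j)) (M * T (i j)) (b j) (y j) (u j)) m‖ ^ 2) ≤ D * P2 (ε * J) := by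
  obtain ⟨K', hK'1, hbt⟩ := bt_le hKW y₀ y₁ hy₀
  obtain ⟨K, hK1, hmem⟩ := member hKN T a hT hC y₀ y₁ M q hy₀ hy₁ hM 1 ε one_pos le_rfl hε
  obtain ⟨K₂, hK₂1, hsup⟩ := gw_sup T a hT hC M q hM ε hε
  have hI0 : (0 : ℝ) ≤ I := Nat.cast_nonneg I
  refine ⟨(I + 1) * K' * (3 * K + K₂), by
    have h1 : 1 ≤ ((I : ℝ) + 1) * K' := by nlinarith
    nlinarith, ?_⟩
  intro J X i b l u y hi hl hy hX
  have hb : ∀ j m, ‖bs (T (i j)) (a (i j)) (M * T (i j)) (b j) (y j) (u j) m‖ ≤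
      K' * gw (T (i j)) (a (i j)) (M * T (i j)) (y j) m.natAbs := fun j m => by
    rw [bs_norm]
    exact hbt _ _ _ _ _ _ (hT _) (hy j).1 (hy j).2
  constructor
  · intro m
    have hp := P2_pos ((ε - 1 / 8) * J)
    calc ‖bc l (fun j => bs (T (i j)) (a (i j)) (M * T (i j)) (b j) (y j) (u j)) m‖ ≤
          ∑ j, ‖bs (T (i j)) (a (i j)) (M * T (i j)) (b j) (y j) (u j) m‖ := bc_norm l _ hl m
      _ ≤ ∑ _j : Fin I, K' * (K₂ * P2 ((ε - 1 / 8) * J)) := by
          refine Finset.sum_le_sum fun j _ => (hb j m).trans ?_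
          exact mul_le_mul_of_nonneg_left (hsup (i j) J (y j) _ (hi j).1 (hi j).2) (by linarith)
      _ = I * K' * K₂ * P2 ((ε - 1 / 8) * J) := by
          rw [Finset.sum_const, Finset.card_univ, Fintype.card_fin, nsmul_eq_mul]
          ring
      _ ≤ (I + 1) * K' * (3 * K + K₂) * P2 ((ε - 1 / 8) * J) := by
          apply mul_le_mul_of_nonneg_right _ hp.le
          apply mul_le_mul _ (by linarith) (by linarith) (by positivity)
          apply mul_le_mul_of_nonneg_right (by linarith) (by linarith)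
  · have hp := P2_pos (ε * J)
    apply Real.sqrt_le_iff.2
    refine ⟨by positivity, ?_⟩
    have hgw : ∀ j, ∑ n ∈ Icc 1 X, gw (T (i j)) (a (i j)) (M * T (i j)) (y j) n ^ 2 ≤ 4 * (K * P2 (ε * J)) ^ 2 := by
      intro j
      obtain ⟨p, r, _, hpos, hpr, -, -, -, hr, hpp⟩ :=
        hmem (i j) J X (y j) (hi j).1 (hi j).2 (hy j).1 (hy j).2 hX
      have h1 : ∑ n ∈ Icc 1 X, gw (T (i j)) (a (i j)) (M * T (i j)) (y j) n ^ 2 ≤
          2 * ∑ n ∈ Icc 1 X, p n ^ 2 + 2 * ∑ n ∈ Icc 1 X, r n ^ 2 := by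
        rw [Finset.mul_sum, Finset.mul_sum, ← Finset.sum_add_distrib]
        refine Finset.sum_le_sum fun n _ => ?_
        rw [hpr n]
        nlinarith [sq_nonneg (p n - r n)]
      have h2 := (sumsq_le_nn X p).trans hpp
      have h3 := (sumsq_le_nn X r).trans hr
      have h4 : (K * P2 (ε * J) * P2 (-(1 / 8) * J)) ^ 2 ≤ (K * P2 (ε * J)) ^ 2 := by
        apply pow_le_pow_left₀ (by have := P2_pos (-(1 / 8) * J); positivity)
        have h5 : P2 (-(1 / 8) * J) ≤ 1 := by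
          have h50 : (0 : ℝ) ≤ J := Nat.cast_nonneg J
          calc P2 (-(1 / 8) * J) ≤ P2 0 := P2_le (by linarith)
            _ = 1 := P2_zero
        have h6 : 0 ≤ K * P2 (ε * J) := by positivity
        nlinarith
      linarith
    calc ∑ m ∈ Bx X, ‖bc l (fun j => bs (T (i j)) (a (i j)) (M * T (i j)) (b j) (y j) (u j)) m‖ ^ 2 ≤
          ∑ m ∈ Bx X, ∑ j, (I : ℝ) * (K' ^ 2 * gw (T (i j)) (a (i j)) (M * T (i j)) (y j) m.natAbs ^ 2) := by
          refine Finset.sum_le_sum fun m _ => ?_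
          have h1 := bc_norm l (fun j => bs (T (i j)) (a (i j)) (M * T (i j)) (b j) (y j) (u j)) hl m
          calc ‖bc l (fun j => bs (T (i j)) (a (i j)) (M * T (i j)) (b j) (y j) (u j)) m‖ ^ 2 ≤
                (∑ j, ‖bs (T (i j)) (a (i j)) (M * T (i j)) (b j) (y j) (u j) m‖) ^ 2 :=
                pow_le_pow_left₀ (norm_nonneg _) h1 2
            _ ≤ ((univ : Finset (Fin I)).card : ℝ) *
                ∑ j, ‖bs (T (i j)) (a (i j)) (M * T (i j)) (b j) (y j) (u j) m‖ ^ 2 :=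
                sq_sum_le_card_mul_sum_sq
            _ ≤ _ := by
                rw [Finset.card_univ, Fintype.card_fin, Finset.mul_sum]
                refine Finset.sum_le_sum fun j _ => ?_
                apply mul_le_mul_of_nonneg_left _ hI0
                rw [← mul_pow]
                exact pow_le_pow_left₀ (norm_nonneg _) (hb j m) 2
      _ = ∑ j, ((I : ℝ) * K' ^ 2) * ∑ m ∈ Bx X, gw (T (i j)) (a (i j)) (M * T (i j)) (y j) m.natAbs ^ 2 := by
          rw [Finset.sum_comm]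
          refine Finset.sum_congr rfl fun j _ => ?_
          rw [Finset.mul_sum]
          refine Finset.sum_congr rfl fun m _ => ?_
          ring
      _ ≤ ∑ _j : Fin I, ((I : ℝ) * K' ^ 2) * (2 * (4 * (K * P2 (ε * J)) ^ 2)) := by
          refine Finset.sum_le_sum fun j _ => ?_
          apply mul_le_mul_of_nonneg_left _ (by positivity)
          refine (sum_Bx X (fun n => gw (T (i j)) (a (i j)) (M * T (i j)) (y j) n ^ 2) fun n => sq_nonneg _).trans ?_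
          linarith [hgw j]
      _ = (I : ℝ) ^ 2 * K' ^ 2 * (8 * K ^ 2) * P2 (ε * J) ^ 2 := by
          rw [Finset.sum_const, Finset.card_univ, Fintype.card_fin, nsmul_eq_mul]
          ring
      _ ≤ ((I : ℝ) + 1) ^ 2 * K' ^ 2 * (3 * K + K₂) ^ 2 * P2 (ε * J) ^ 2 := by
          apply mul_le_mul_of_nonneg_right _ (by positivity)
          apply mul_le_mul _ _ (by positivity) (by positivity)
          · apply mul_le_mul_of_nonneg_right _ (by positivity)
            nlinarith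
          · nlinarith
      _ = ((I + 1) * K' * (3 * K + K₂) * P2 (ε * J)) ^ 2 := by ring

/-- the bound of all mixed moments, for one modulus and one level -/
def Mix {ι : Type} (T : ι → ℝ) (a : ι → ℕ → ℝ) (y₀ y₁ : ℝ) (k q : ℕ) (f : ℕ → ℝ) (J : ℕ) (B : ℝ) : Prop :=
  ∀ (i : Fin k → ι) (b : Fin k → Bool) (u y : Fin k → ℝ) (α β : ℝ),
    (∀ j, T (i j) ≤ 2 ^ J ∧ 2 ^ J ≤ 2 ^ q * T (i j)) → (∀ j, y₀ ≤ y j ∧ y j ≤ y₁) → 0 ≤ α → α ≤ β → β ≤ 1 →
      |(∫ x in α..β, ∏ j, ph (b j) f (T (i j)) (a (i j)) (x + u j) (y j)) - (β - α) *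
        (DB k ((⌈1 / y₀⌉₊ + 1) * 2 ^ J) (fun j =>
          bs (T (i j)) (a (i j)) ((⌈1 / y₀⌉₊ + 1) * T (i j)) (b j) (y j) (u j))).re| ≤ B

/-- the moments of a combination and the balanced tuples -/
theorem moment_DB (hK : S_KODE) {ι : Type} (T : ι → ℝ) (a : ι → ℕ → ℝ) (hC : Coef T a) (f : ℕ → ℝ)
    (hf : ∀ n, |f n| ≤ 1) (y₀ y₁ : ℝ) (hy₀ : 0 < y₀) (k q J : ℕ) (B : ℝ) (h : Mix T a y₀ y₁ k q f J B)
    (I : ℕ) (i : Fin I → ι) (b : Fin I → Bool) (l u y : Fin I → ℝ) (α β : ℝ)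
    (hi : ∀ j, T (i j) ≤ 2 ^ J ∧ 2 ^ J ≤ 2 ^ q * T (i j)) (hl : ∀ j, |l j| ≤ 1)
    (hy : ∀ j, y₀ ≤ y j ∧ y j ≤ y₁) (hα : 0 ≤ α) (hαβ : α ≤ β) (hβ : β ≤ 1) :
    |(∫ x in α..β, (∑ j, l j * ph (b j) f (T (i j)) (a (i j)) (x + u j) (y j)) ^ k) - (β - α) *
      (DB k ((⌈1 / y₀⌉₊ + 1) * 2 ^ J)
        (fun _ => bc l fun j => bs (T (i j)) (a (i j)) ((⌈1 / y₀⌉₊ + 1) * T (i j)) (b j) (y j) (u j))).re| ≤
      (I : ℝ) ^ k * B := by
  classical
  have hcont : ∀ j, Continuous fun x => ph (b j) f (T (i j)) (a (i j)) (x + u j) (y j) := by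
    intro j
    obtain ⟨A, hA0, hA⟩ := coef_poly T a hC (i j)
    have h1 := ph_cont (b j) f hf (T (i j)) (a (i j)) (y j)
      (co_summable hK (T (i j)) (a (i j)) (y j) A (hy₀.trans_le (hy j).1) hA0 hA)
    exact h1.comp (continuous_id.add continuous_const)
  have h1 : ∀ x, (∑ j, l j * ph (b j) f (T (i j)) (a (i j)) (x + u j) (y j)) ^ k =
      ∑ p : Fin k → Fin I, (∏ r, l (p r)) *
        ∏ r, ph (b (p r)) f (T (i (p r))) (a (i (p r))) (x + u (p r)) (y (p r)) := by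
    intro x
    rw [pow_expand]
    exact Finset.sum_congr rfl fun p _ => Finset.prod_mul_distrib
  have hii : ∀ p : Fin k → Fin I, IntervalIntegrable (fun x => (∏ r, l (p r)) *
      ∏ r, ph (b (p r)) f (T (i (p r))) (a (i (p r))) (x + u (p r)) (y (p r))) volume α β := by
    intro p
    apply Continuous.intervalIntegrable
    exact continuous_const.mul (continuous_finsetProd _ fun r _ => hcont (p r))
  simp only [h1]
  rw [intervalIntegral.integral_finsetSum fun p _ => hii p, DB_multi, Complex.re_sum,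
    Finset.mul_sum, ← Finset.sum_sub_distrib]
  refine (Finset.abs_sum_le_sum_abs _ _).trans ?_
  have h2 : ∀ p : Fin k → Fin I, |(∫ x in α..β, (∏ r, l (p r)) *
      ∏ r, ph (b (p r)) f (T (i (p r))) (a (i (p r))) (x + u (p r)) (y (p r))) - (β - α) * (((∏ r, l (p r) : ℝ) : ℂ) *
      DB k ((⌈1 / y₀⌉₊ + 1) * 2 ^ J) (fun r => bs (T (i (p r))) (a (i (p r))) ((⌈1 / y₀⌉₊ + 1) * T (i (p r)))
        (b (p r)) (y (p r)) (u (p r)))).re| ≤ B := by
    intro p
    have h3 := h (fun r => i (p r)) (fun r => b (p r)) (fun r => u (p r)) (fun r => y (p r)) α β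
      (fun r => hi (p r)) (fun r => hy (p r)) hα hαβ hβ
    rw [intervalIntegral.integral_const_mul, Complex.re_ofReal_mul]
    have h4 : ∀ P U V : ℝ, P * U - (β - α) * (P * V) = P * (U - (β - α) * V) := fun P U V => by ring
    rw [h4, abs_mul, Finset.abs_prod]
    have h5 : ∏ r, |l (p r)| ≤ 1 := Finset.prod_le_one (fun r _ => abs_nonneg _) fun r _ => hl (p r)
    calc (∏ r, |l (p r)|) * _ ≤ 1 * _ := mul_le_mul_of_nonneg_right h5 (abs_nonneg _)
      _ ≤ _ := by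
        rw [one_mul]
        exact h3
  refine (Finset.sum_le_sum fun p _ => h2 p).trans (le_of_eq ?_)
  rw [Finset.sum_const, Finset.card_univ, Fintype.card_fun, Fintype.card_fin, Fintype.card_fin, nsmul_eq_mul]
  push_cast
  ring

end Pool.Agent.Q153.L2
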