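import Pool.Agent.Q255.L2.Alm
import Pool.Agent.Q13.L2.Gma

/-!
# Moments of quadratic twists for almost all moduli, from the two counts
-/

set_option autoImplicit false

namespace Pool.Agent.Q153.L2

open Filter Topology MeasureTheory Finset
open Pool.Agent.Q255.IC Pool.Agent.Q255.IR Pool.Agent.Q255.EP Pool.Agent.Q255.L2
open Pool.Agent.Q13.L2M (SS PP SN coF PP_le natAbs_pos_of sq_part WW WW_card nn_co)

/-! ## The Jacobi symbol -/

theorem jc_mul (m a b : ℕ) : jc m (a * b) = jc m a * jc m b := by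
  unfold jc
  push_cast
  rw [jacobiSym.mul_left]
  push_cast
  rfl

theorem jc_one (m : ℕ) : jc m 1 = 1 := by
  unfold jc
  rw [Nat.cast_one, jacobiSym.one_left]
  norm_num

theorem jc_sq {m n : ℕ} (h : Nat.Coprime n m) : jc m n * jc m n = 1 := by
  unfold jc
  have h1 : Int.gcd (n : ℤ) m = 1 := by
    rw [Int.gcd_natCast_natCast]
    exact h
  rcases jacobiSym.eq_one_or_neg_one h1 with h2 | h2 <;> rw [h2] <;> norm_num

theorem jc_prod {α : Type} (m : ℕ) (s : Finset α) (t : α → ℕ) :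
    jc m (∏ i ∈ s, t i) = ∏ i ∈ s, jc m (t i) := by
  classical
  induction s using Finset.induction_on with
  | empty => simpa using jc_one m
  | insert i s hi ih => rw [prod_insert hi, prod_insert hi, jc_mul, ih]

/-- small numbers are prime to a rough number -/
theorem rgh_coprime {J m n : ℕ} (hm : Rgh J m) (hn : 1 ≤ n) (hn2 : n ≤ 2 ^ J) : Nat.Coprime n m := by
  refine Nat.Coprime.symm (Nat.coprime_of_dvd' ?_)
  intro p hp hpm hpn
  have h1 := hm p hp hpm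
  have h2 : p ≤ n := Nat.le_of_dvd (by omega) hpn
  omega

section co
variable {k : ℕ}

theorem PP_coprime {J m : ℕ} (hm : Rgh J m) {h : ℤ} {t : Fin k → ℤ} (ht : t ∈ SS k (2 ^ J) h) :
    Nat.Coprime (PP t) m := by
  have h1 : ∀ i, t i ∈ Bx (2 ^ J) := Fintype.mem_piFinset.1 (mem_filter.1 ht).1
  unfold PP
  refine Nat.Coprime.prod_left fun i _ => ?_
  exact rgh_coprime hm (natAbs_pos_of t (2 ^ J) h1 i).1 (natAbs_pos_of t (2 ^ J) h1 i).2

theorem jc_square {J m : ℕ} (hm : Rgh J m) {h : ℤ} {t : Fin k → ℤ} (ht : t ∈ SS k (2 ^ J) h)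
    (hsq : IsSquare (PP t)) : jc m (PP t) = 1 := by
  have h1 := PP_coprime hm ht
  obtain ⟨r, hr⟩ := hsq
  rw [hr] at h1 ⊢
  rw [jc_mul]
  exact jc_sq (Nat.Coprime.coprime_mul_right h1)

theorem TS_eq (m : ℕ) (X : ℕ) (h : ℤ) (β : Fin k → ℤ → ℂ) :
    TS (jc m) k X h β = ∑ t ∈ SS k X h, (∏ j, β j (t j)) * (jc m (PP t) : ℂ) := by
  unfold TS SS
  refine sum_congr rfl fun t ht => ?_
  rw [prod_mul_distrib]
  congr 1
  unfold PP
  rw [jc_prod]
  push_cast
  rfl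

theorem ns_part (χ : ℕ → ℝ) (X : ℕ) (h : ℤ) (β : Fin k → ℤ → ℂ) :
    ∑ t ∈ SN k X h, (∏ j, β j (t j)) * (χ (PP t) : ℂ) =
      ∑ n ∈ Icc 1 (X ^ k), coF X h β n * (χ n : ℂ) := by
  unfold coF
  simp only [sum_mul]
  rw [sum_comm]
  refine sum_congr rfl fun t ht => ?_
  rw [sum_eq_single_of_mem (PP t)]
  · rw [if_pos rfl]
  · exact mem_Icc.2 (PP_le (mem_filter.1 ht).1)
  · intro n _ hn
    rw [if_neg fun h => hn h.symm, zero_mul]

open Classical in
theorem TS_bound {J m : ℕ} (hm : Rgh J m) (h : ℤ) (β : Fin k → ℤ → ℂ) :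
    ‖TS (jc m) k (2 ^ J) h β - if h = 0 then DB k (2 ^ J) β else 0‖ ≤ U1 k (2 ^ J) h β +
      (|∑ n ∈ Icc 1 ((2 ^ J) ^ k), (coF (2 ^ J) h β n).re * jc m n| +
        |∑ n ∈ Icc 1 ((2 ^ J) ^ k), (coF (2 ^ J) h β n).im * jc m n|) := by
  set X := 2 ^ J with hX
  have e1 : TS (jc m) k X h β = (∑ t ∈ (SS k X h).filter (fun t => IsSquare (PP t)), ∏ j, β j (t j)) +
      ∑ n ∈ Icc 1 (X ^ k), coF X h β n * (jc m n : ℂ) := by
    rw [TS_eq, ← sum_filter_add_sum_filter_not (SS k X h) (fun t => IsSquare (PP t)), ← ns_part]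
    congr 1
    refine sum_congr rfl fun t ht => ?_
    rw [mem_filter] at ht
    rw [jc_square hm ht.1 ht.2]
    simp
  have e2 : TS (jc m) k X h β - (if h = 0 then DB k X β else 0) =
      ((∑ t ∈ (SS k X h).filter (fun t => IsSquare (PP t)), ∏ j, β j (t j)) -
        if h = 0 then DB k X β else 0) + ∑ n ∈ Icc 1 (X ^ k), coF X h β n * (jc m n : ℂ) := by
    rw [e1]; ring
  rw [e2]
  refine (norm_add_le _ _).trans (add_le_add (sq_part X h β) ?_)
  have e3 : (∑ n ∈ Icc 1 (X ^ k), coF X h β n * (jc m n : ℂ)).re =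
      ∑ n ∈ Icc 1 (X ^ k), (coF X h β n).re * jc m n := by
    rw [Complex.re_sum]
    refine sum_congr rfl fun n _ => ?_
    simp
  have e4 : (∑ n ∈ Icc 1 (X ^ k), coF X h β n * (jc m n : ℂ)).im =
      ∑ n ∈ Icc 1 (X ^ k), (coF X h β n).im * jc m n := by
    rw [Complex.im_sum]
    refine sum_congr rfl fun n _ => ?_
    simp
  rw [← e3, ← e4]
  exact Complex.norm_le_abs_re_add_abs_im _

end co

open Classical in
/-- moments of the twists from the two counts -/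
theorem gmaq (h : S_QE) : S_GMAQ := by
  intro k hk 𝓑 A c C₀ hc hB0 hBc hU
  have hk0 : (0 : ℝ) < k := by exact_mod_cast hk
  have hQ := h (k * |A| + 3) (c / (4 * k)) (WW k 𝓑) (by positivity) (WW_card k hk 𝓑 A hBc)
  have hQ2 := hQ.scale hk 0
  refine ⟨|C₀| + 2 * √|C₀|, hQ2.mono fun J m hC1 hR β hβ l hl => ?_⟩
  simp only [Nat.add_zero] at hC1
  obtain ⟨u1, u2⟩ := hU J β hβ l
  have hd : k * J / k = J := Nat.mul_div_cancel_left J (by omega)
  have hmem : ∀ b : Bool, (fun n => if b then (coF (2 ^ J) l β n).re else (coF (2 ^ J) l β n).im) ∈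
      WW k 𝓑 (k * J) := by
    have hl' : l ∈ Icc (-((2 : ℤ) ^ J)) (2 ^ J) := mem_Icc.2 (abs_le.1 hl)
    intro b
    unfold WW
    rw [if_pos (Dvd.intro J rfl), hd]
    cases b
    · refine mem_union_right _ (mem_image.2 ⟨(β, l), ?_, rfl⟩)
      exact mem_product.2 ⟨Fintype.mem_piFinset.2 hβ, hl'⟩
    · refine mem_union_left _ (mem_image.2 ⟨(β, l), ?_, rfl⟩)
      exact mem_product.2 ⟨Fintype.mem_piFinset.2 hβ, hl'⟩
  have hp : (2 ^ J) ^ k = 2 ^ (k * J) := by rw [← pow_mul, mul_comm]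
  have hE : (2 : ℝ) ^ (c / (4 * k) * ((k * J : ℕ) : ℝ)) = (2 : ℝ) ^ (c / 4 * J) := by
    congr 1
    push_cast
    field_simp
  have hb : ∀ w : ℕ → ℝ, w ∈ WW k 𝓑 (k * J) → (∀ n, |w n| ≤ ‖coF (2 ^ J) l β n‖) →
      |∑ n ∈ Icc 1 ((2 ^ J) ^ k), w n * jc m n| ≤ √|C₀| * (2 : ℝ) ^ (-(c / 4 * J)) := by
    intro w hw hw2
    rw [hp]
    refine (hC1 w hw).trans ?_
    rw [hE]
    have g1 : √(nn (2 ^ (k * J)) w) ≤ √|C₀| * (2 : ℝ) ^ (-(c / 2 * J)) := by
      have g2 : nn (2 ^ (k * J)) w ≤ |C₀| * (2 : ℝ) ^ (-(c * J)) :=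
        ((nn_co (2 ^ J) _ l β w hw2).trans u2).trans
          (mul_le_mul_of_nonneg_right (le_abs_self C₀) (by positivity))
      refine (Real.sqrt_le_sqrt g2).trans (le_of_eq ?_)
      rw [Real.sqrt_mul (abs_nonneg _)]
      congr 1
      rw [Real.sqrt_eq_rpow, ← Real.rpow_mul (by norm_num)]
      congr 1
      ring
    calc (2 : ℝ) ^ (c / 4 * J) * √(nn (2 ^ (k * J)) w)
        ≤ (2 : ℝ) ^ (c / 4 * J) * (√|C₀| * (2 : ℝ) ^ (-(c / 2 * J))) :=
          mul_le_mul_of_nonneg_left g1 (by positivity)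
      _ = √|C₀| * ((2 : ℝ) ^ (c / 4 * J) * (2 : ℝ) ^ (-(c / 2 * J))) := by ring
      _ = _ := by
          rw [← Real.rpow_add (by norm_num)]
          congr 2
          ring
  have r1 := hb _ (hmem true) (fun n => by simpa using Complex.abs_re_le_norm _)
  have r2 := hb _ (hmem false) (fun n => by simpa using Complex.abs_im_le_norm _)
  simp only [if_true] at r1
  simp only [Bool.false_eq_true, if_false] at r2
  have r3 : U1 k (2 ^ J) l β ≤ |C₀| * (2 : ℝ) ^ (-(c / 4 * J)) := by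
    refine u1.trans ?_
    have h1 : (2 : ℝ) ^ (-(c * J)) ≤ (2 : ℝ) ^ (-(c / 4 * J)) := by
      refine Real.rpow_le_rpow_of_exponent_le (by norm_num) ?_
      have : (0 : ℝ) ≤ J := by positivity
      nlinarith
    calc C₀ * (2 : ℝ) ^ (-(c * J)) ≤ |C₀| * (2 : ℝ) ^ (-(c * J)) :=
          mul_le_mul_of_nonneg_right (le_abs_self C₀) (by positivity)
      _ ≤ _ := mul_le_mul_of_nonneg_left h1 (abs_nonneg _)
  refine (TS_bound hR l β).trans ?_
  have e5 : (|C₀| + 2 * √|C₀|) * (2 : ℝ) ^ (-(c / 4 * J)) = |C₀| * (2 : ℝ) ^ (-(c / 4 * J)) +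
      (√|C₀| * (2 : ℝ) ^ (-(c / 4 * J)) + √|C₀| * (2 : ℝ) ^ (-(c / 4 * J))) := by ring
  rw [e5]
  exact add_le_add r3 (add_le_add r1 r2)

end Pool.Agent.Q153.L2
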