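import Pool.Agent.Q153.L2.Gmaq
import Pool.Agent.Q184.L2.Vmb

/-!
# Vinogradov mean values twisted by almost all quadratic symbols
-/

set_option autoImplicit false

namespace Pool.Agent.Q153.L2

open Filter Topology MeasureTheory Finset
open Pool.Agent.Q255.IC Pool.Agent.Q255.IR Pool.Agent.Q255.EP Pool.Agent.Q255.L2
open Pool.Agent.Q184.L2 (WW card_WW)

/-- the sign at a prime -/
noncomputable def gp (m p : ℕ) : ℝ := if Nat.Coprime p m then jc m p else 1

theorem gp_or (m p : ℕ) : gp m p = 1 ∨ gp m p = -1 := by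
  unfold gp
  split_ifs with h
  · have h1 := jc_sq h
    have h2 : (jc m p - 1) * (jc m p + 1) = 0 := by linear_combination h1
    rcases mul_eq_zero.1 h2 with h3 | h3
    · exact Or.inl (by linarith)
    · exact Or.inr (by linarith)
  · exact Or.inl rfl

/-- the completely multiplicative function with the values `1`, `-1` -/
noncomputable def xm (m n : ℕ) : ℝ := (n.primeFactorsList.map (gp m)).prod

theorem list_or (m : ℕ) (l : List ℕ) : (l.map (gp m)).prod = 1 ∨ (l.map (gp m)).prod = -1 := by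
  induction l with
  | nil => exact Or.inl rfl
  | cons a l ih =>
    rw [List.map_cons, List.prod_cons]
    rcases gp_or m a with h | h <;> rcases ih with h' | h' <;> rw [h, h'] <;> norm_num

theorem sgn_xm (m : ℕ) : Sgn (xm m) := by
  refine ⟨fun a b ha hb => ?_, fun n _ => list_or m _⟩
  unfold xm
  rw [(List.Perm.map (gp m) (Nat.perm_primeFactorsList_mul (by omega) (by omega))).prod_eq,
    List.map_append, List.prod_append]

theorem jc_list (m : ℕ) (l : List ℕ) : jc m l.prod = (l.map (jc m)).prod := by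
  induction l with
  | nil => exact jc_one m
  | cons a l ih => rw [List.prod_cons, List.map_cons, List.prod_cons, jc_mul, ih]

theorem xm_eq {m n : ℕ} (hn : 1 ≤ n) (h : Nat.Coprime n m) : xm m n = jc m n := by
  conv_rhs => rw [← Nat.prod_primeFactorsList (n := n) (by omega)]
  rw [jc_list]
  unfold xm
  congr 1
  refine List.map_congr_left fun p hp => ?_
  unfold gp
  rw [if_pos]
  exact Nat.Coprime.coprime_dvd_left (Nat.dvd_of_mem_primeFactorsList hp) h

theorem sol_mem {s k : ℕ} {I : Finset ℕ} {t : (Fin s → ℕ) × (Fin s → ℕ)} (ht : t ∈ Sol s k I) :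
    (∀ i, t.1 i ∈ I) ∧ ∀ i, t.2 i ∈ I := by
  simp only [Sol, mem_filter, mem_product] at ht
  exact ⟨Fintype.mem_piFinset.1 ht.1.1, Fintype.mem_piFinset.1 ht.1.2⟩

theorem vmq (h1 : S_QE) (h2 : S_VMA) : S_VMQ := by
  classical
  intro s k hs hk
  obtain ⟨c, C, hc, hC, H⟩ := h2 s k hs hk
  have hs0 : (0 : ℝ) < s := by exact_mod_cast hs
  have he0 : 0 < c / (8 * s) := by positivity
  have hQ := (h1 (2 * Real.log 2) (c / (8 * s)) (WW s k) he0 (card_WW s k)).scale
    (k := 2 * s) (by omega) 0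
  refine ⟨c / 4, C + √C, by positivity, by positivity, hQ.mono fun J m hm hR a b hab hb => ?_⟩
  simp only [Nat.add_zero] at hm
  have hN : 1 ≤ 2 ^ J := Nat.one_le_two_pow
  obtain ⟨G1, G2, G3⟩ := H (2 ^ J) a b hN hab hb
  have hI : ∀ x ∈ Ioc a b, Nat.Coprime x m ∧ 1 ≤ x := by
    intro x hx
    rw [mem_Ioc] at hx
    exact ⟨rgh_coprime hR (by omega) (by omega), by omega⟩
  have hpw : (2 ^ J) ^ (2 * s) = 2 ^ (2 * s * J) := by rw [← pow_mul, mul_comm]
  -- the two twists agree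
  have e1 : JJ (jc m) s k (Ioc a b) = JJ (xm m) s k (Ioc a b) := by
    unfold JJ
    refine sum_congr rfl fun t ht => ?_
    obtain ⟨t1, t2⟩ := sol_mem ht
    rw [prod_congr rfl fun i _ => (xm_eq (hI _ (t1 i)).2 (hI _ (t1 i)).1).symm,
      prod_congr rfl fun i _ => (xm_eq (hI _ (t2 i)).2 (hI _ (t2 i)).1).symm]
  have e2 : ∑ n ∈ Icc 1 (2 ^ (2 * s * J)), AA s k (Ioc a b) n * xm m n =
      ∑ n ∈ Icc 1 (2 ^ (2 * s * J)), AA s k (Ioc a b) n * jc m n := by
    refine sum_congr rfl fun n hn => ?_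
    by_cases h0 : AA s k (Ioc a b) n = 0
    · rw [h0, zero_mul, zero_mul]
    · have h3 : ∃ t ∈ Sol s k (Ioc a b), (∏ i, t.1 i) * ∏ i, t.2 i = n := by
        by_contra hcon
        push Not at hcon
        apply h0
        unfold AA
        split_ifs with hsq
        · rfl
        · rw [filter_eq_empty_iff.2 fun t ht => hcon t ht]
          simp
      obtain ⟨t, ht, htn⟩ := h3
      obtain ⟨t1, t2⟩ := sol_mem ht
      have h4 : Nat.Coprime n m := by
        rw [← htn]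
        exact Nat.Coprime.mul_left (Nat.Coprime.prod_left fun i _ => (hI _ (t1 i)).1)
          (Nat.Coprime.prod_left fun i _ => (hI _ (t2 i)).1)
      rw [xm_eq (mem_Icc.1 hn).1 h4]
  have K1 := G3 (xm m) (2 ^ (2 * s * J)) (sgn_xm m) (le_of_eq hpw)
  rw [e2] at K1
  rw [e1]
  have hmem : AA s k (Ioc a b) ∈ WW s k (2 * s * J) := by
    have hb2 : b ^ (2 * s) ≤ 2 ^ (2 * s * J) := by
      rw [← hpw]
      exact Nat.pow_le_pow_left hb _
    have hbJ : b < 2 ^ (2 * s * J) + 1 := by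
      have : b ≤ b ^ (2 * s) := Nat.le_self_pow (by omega) b
      omega
    rw [WW, mem_image]
    refine ⟨(a, b), ?_, rfl⟩
    rw [mem_filter, mem_product, mem_range, mem_range]
    exact ⟨⟨by show a < 2 ^ (2 * s * J) + 1; omega, hbJ⟩, hab, hb2⟩
  have K2 := hm _ hmem
  set Y : ℝ := (2 : ℝ) ^ J with hY
  have hY1 : 1 ≤ Y := one_le_pow₀ (by norm_num)
  have hY0 : 0 < Y := by positivity
  have hcast : ((2 ^ J : ℕ) : ℝ) = Y := by rw [hY]; push_cast; rfl
  rw [hcast] at K1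
  have K3 : √(nn (2 ^ (2 * s * J)) (AA s k (Ioc a b))) ≤ √C * Y ^ ((s : ℝ) - c / 2) := by
    have h3 := G1 (2 ^ (2 * s * J))
    rw [hcast] at h3
    refine (Real.sqrt_le_sqrt h3).trans (le_of_eq ?_)
    rw [Real.sqrt_mul hC, Real.sqrt_eq_rpow (Y ^ _), ← Real.rpow_mul hY0.le]
    congr 2
    ring
  have K4 : (2 : ℝ) ^ (c / (8 * s) * ((2 * s * J : ℕ) : ℝ)) = Y ^ (c / 4) := by
    rw [hY, ← Real.rpow_natCast, ← Real.rpow_mul two_pos.le]
    congr 1
    push_cast
    field_simp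
    ring
  have K5 : Y ^ ((s : ℝ) - c) ≤ Y ^ ((s : ℝ) - c / 4) :=
    Real.rpow_le_rpow_of_exponent_le hY1 (by linarith)
  have K6 : Y ^ (c / 4) * Y ^ ((s : ℝ) - c / 2) = Y ^ ((s : ℝ) - c / 4) := by
    rw [← Real.rpow_add hY0]
    congr 1
    ring
  have K7 : |∑ n ∈ Icc 1 (2 ^ (2 * s * J)), AA s k (Ioc a b) n * jc m n| ≤
      √C * Y ^ ((s : ℝ) - c / 4) := by
    refine K2.trans ?_
    rw [K4]
    calc Y ^ (c / 4) * √(nn (2 ^ (2 * s * J)) (AA s k (Ioc a b)))
        ≤ Y ^ (c / 4) * (√C * Y ^ ((s : ℝ) - c / 2)) :=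
          mul_le_mul_of_nonneg_left K3 (by positivity)
      _ = √C * (Y ^ (c / 4) * Y ^ ((s : ℝ) - c / 2)) := by ring
      _ = _ := by rw [K6]
  calc _ ≤ C * Y ^ ((s : ℝ) - c) + |∑ n ∈ Icc 1 (2 ^ (2 * s * J)), AA s k (Ioc a b) n * jc m n| := K1
    _ ≤ C * Y ^ ((s : ℝ) - c / 4) + √C * Y ^ ((s : ℝ) - c / 4) :=
      add_le_add (mul_le_mul_of_nonneg_left K5 hC) K7
    _ = _ := by ring

end Pool.Agent.Q153.L2
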